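import Pool.Agent.H51.HD.Low
import Pool.Agent.H51.F4.Hc

/-!
# H51-HD-FIN: hypercentral `T`: the lower bound of the right order (MP_b39724_nt, think 1829, (a))

`T` = the subgroup generated by the elements of least index, `T ≤ Z_k(G)` for some `k`; `G / T` arbitrary.
* `hufr`: the frame. `low_hd`: the lower bound over one `K`. `hyp_low`: THE THEOREM, from `APm4 p`, `APu3 p`.
-/

set_option autoImplicit false

open scoped NumberField
open IsDedekindDomain Filter Topology H38.ML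
open scoped Classical

noncomputable section

namespace H51.HD

open H63.MA H38.BB H38.BG H57.PC H57.BRA H63.BU H77.PC3 H57.CC H38.AS H77.S0T H77.AB H77.GN
  H77.UX H77.FLD H77.PLF H51.PF H51.NS H51.F3 H12.S3 H51.HC H51.F4 H86.HT

/-- the frame -/
theorem hufr (n : ℕ) (hn : 2 ≤ n) (G : Subgroup (Equiv.Perm (Fin n)))
    (hG : MulAction.IsPretransitive G (Fin n)) (k : ℕ)
    (hk : Subgroup.closure (Li G) ≤ Subgroup.upperCentralSeries G k) :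
    ∃ (p N : ℕ) (P : Type) (_ : Group P) (_ : Finite P) (Q : HU p N G P),
      p.Prime ∧ 1 ≤ N ∧ IsPGroup p P ∧ Q.T = Subgroup.closure (Li G) ∧
      ∀ h : G, (h ≠ 1 ∧ ind (h : Equiv.Perm (Fin n)) = indG G) ↔ ∃ i, IsConj h (Q.cl.g i) := by
  obtain ⟨ha, ⟨g₀, hg₀, hg₀'⟩, hmin, hcj, hJ⟩ := pidx_pos hn G hG
  obtain ⟨p, hpd⟩ : ∃ p, p = orderOf g₀ := ⟨_, rfl⟩
  have hp : p.Prime := by
    rw [hpd]
    exact H38.ML.prime_of_least G g₀ hg₀ hg₀'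
  have : Fact p.Prime := ⟨hp⟩
  have hL : ∀ h ∈ Li G, h ^ p = 1 := fun h hh => by
    rw [hpd, trgz hn G hG k hk g₀ h ⟨hg₀, hg₀'⟩ hh]
    exact pow_orderOf_eq_one h
  obtain ⟨N, g, hgΛ, uni, hI'⟩ := ncl G {h : G | h ≠ 1 ∧ ind (h : Equiv.Perm (Fin n)) = indG G}
    (fun h hh => hh.1) (by
      rintro h ⟨h1, h2⟩ k hk
      refine ⟨?_, ?_⟩
      · intro hk1
        rw [hk1] at hk
        exact h1 (isConj_one_left.1 hk)
      · obtain ⟨x, rfl⟩ := isConj_iff.1 hk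
        exact hcj h x h1 h2)
  have hcl : Subgroup.closure (Li G) = Subgroup.normalClosure (Set.range g) := by
    unfold Subgroup.normalClosure
    congr 1
    ext h
    rw [Group.mem_conjugatesOfSet_iff]
    constructor
    · intro hh
      obtain ⟨i, hi⟩ := (hI' h).1 hh
      exact ⟨g i, ⟨i, rfl⟩, hi.symm⟩
    · rintro ⟨_, ⟨i, rfl⟩, hi⟩
      exact (hI' h).2 ⟨i, hi.symm⟩
  have hTp : ∀ t ∈ Subgroup.normalClosure (Set.range g), ∃ k : ℕ, t ^ p ^ k = 1 := by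
    intro t ht
    rw [← hcl] at ht
    obtain ⟨j, hj⟩ := tz_pgroup G k hk hp hL ⟨t, ht⟩
    exact ⟨j, congrArg Subtype.val hj⟩
  obtain ⟨N₁, hN₁, Q, hP, hQ⟩ := exists_hu hp g (fun i => hL _ (hgΛ i))
    (fun i => (hgΛ i).1) uni hTp k (by rw [← hcl]; exact hk)
  refine ⟨p, N, G ⧸ N₁, inferInstance, inferInstance, Q, hp, ?_, hP, ?_, fun h => ?_⟩
  · obtain ⟨i, -⟩ := (hI' g₀).1 ⟨hg₀, hg₀'⟩
    exact Nat.one_le_iff_ne_zero.2 fun h => by
      subst h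
      exact i.elim0
  · rw [Q.hT, hcl]
    unfold Tc
    rw [hQ]
  · rw [hQ]
    exact hI' h

instance uu_finite {p N : ℕ} {G P : Type} [Group G] [Group P] [Finite G] [Finite P]
    (Q : HU p N G P) : Finite (UU Q) := by
  refine Finite.of_injective (fun u : UU Q => ((u.left, u.right) : Q.T × P)) ?_
  intro u v h
  exact SemidirectProduct.ext (congrArg Prod.fst h) (congrArg Prod.snd h)

/-- the lower bound over one `K` -/
theorem low_hd {n p N : ℕ} {G : Subgroup (Equiv.Perm (Fin n))} {P : Type} [Group P] [Finite P]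
    {K : IntermediateField ℚ (AlgebraicClosure ℚ)} [NumberField K]
    (hn : 2 ≤ n) (hG : MulAction.IsPretransitive G (Fin n)) (hp : p.Prime)
    (Q : HU p N G P) (hP : IsPGroup p P) (M : ℕ) (hM : 2 ≤ M) (hPL : PLf p M (cU Q))
    (hI : ∀ h : G, (h ≠ 1 ∧ ind (h : Equiv.Perm (Fin n)) = indG G) ↔ ∃ i, IsConj h (Q.cl.g i))
    (hρ : ∃ ρ : Gal(QBar/K) →* FF Q, Function.Surjective ρ ∧ FT ρ)
    (hz : ∃ z : K, IsPrimitiveRoot z (Nat.card G)) (hz₂ : ∃ z : K, IsPrimitiveRoot z (p ^ M)) :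
    ∃ c B₀ : ℝ, 0 < c ∧ ∀ B : ℝ, B₀ ≤ B →
      ((⌈c * B ^ (1 / (Spec.indG G : ℝ)) *
        Real.log B ^ (Spec.betaAll K QBar G - 1)⌉₊ : ℕ) : ℕ∞) ≤ Spec.nK K QBar G B := by
  have : NeZero p := ⟨hp.ne_zero⟩
  have : Fact p.Prime := ⟨hp⟩
  obtain ⟨z₂, hz2⟩ := hz₂
  have hp2 : MOne p K := mone_of hp hM hz2
  obtain ⟨Φ, hs, hΦ⟩ := hρ
  obtain ⟨ζ, hζ⟩ : ∃ ζ : K, IsPrimitiveRoot ζ p := by
    refine ⟨z₂ ^ p ^ (M - 1), hz2.pow (pow_pos hp.pos _) ?_⟩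
    rw [← pow_succ]
    congr 1
    omega
  obtain ⟨z, hz⟩ := hz
  have hβ : Spec.betaAll K QBar G = N := lbet G K z hz Q.cl.g Q.cl.uni hI
  rw [hβ]
  exact hdlow G K hn hG hp hp2 hζ hz2 Q hP hPL.pos hPL.ub hI Φ hs hΦ

/-- THE THEOREM: the lower bound of the right order -/
theorem hyp_low (hA : ∀ p : ℕ, p.Prime → APm4 p) (hU : ∀ p : ℕ, p.Prime → APu3 p) (n : ℕ)
    (hn : 2 ≤ n) (G : Subgroup (Equiv.Perm (Fin n))) (hG : MulAction.IsPretransitive G (Fin n))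
    (k : ℕ) (hk : Subgroup.closure {h : G | h ≠ 1 ∧ Spec.ind (h : Equiv.Perm (Fin n)) =
      Spec.indG G} ≤ Subgroup.upperCentralSeries G k) :
    ∃ K₀ : IntermediateField ℚ (AlgebraicClosure ℚ), NumberField K₀ ∧
      ∀ K : IntermediateField ℚ (AlgebraicClosure ℚ), ∀ _ : NumberField K, K₀ ≤ K →
        ∃ c B₀ : ℝ, 0 < c ∧ ∀ B : ℝ, B₀ ≤ B →
          ((⌈c * B ^ (1 / (Spec.indG G : ℝ)) *
            Real.log B ^ (Spec.betaAll K (AlgebraicClosure ℚ) G - 1)⌉₊ : ℕ) : ℕ∞) ≤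
              Spec.nK K (AlgebraicClosure ℚ) G B := by
  obtain ⟨p, N, P, iP, fP, Q, hp, hN, hP, -, hI⟩ := hufr n hn G hG k hk
  obtain ⟨M, hM, hPL⟩ := plf4 hp (hA p hp) (hU p hp) (UU Q) (uu_pgroup Q hP)
  have hm0 : 0 < Nat.card G * p ^ M := Nat.mul_pos Nat.card_pos (pow_pos hp.pos _)
  have : NeZero (Nat.card G * p ^ M) := ⟨hm0.ne'⟩
  obtain ⟨K₀, hK₀, h0⟩ := akn (FF Q × Multiplicative (ZMod (Nat.card G * p ^ M)))
  refine ⟨K₀, hK₀, fun K hK hle => ?_⟩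
  obtain ⟨⟨ρ, hρ, hρf⟩, ⟨z, hz⟩, -⟩ := h0 K hle hK
  have hc : Nat.card (FF Q × Multiplicative (ZMod (Nat.card G * p ^ M))) =
      Nat.card (FF Q) * (Nat.card G * p ^ M) := by
    rw [Nat.card_prod]
    congr 1
    exact (Nat.card_congr Multiplicative.toAdd).trans (Nat.card_zmod _)
  rw [hc] at hz
  have hpos : 0 < Nat.card (FF Q) * (Nat.card G * p ^ M) := Nat.mul_pos Nat.card_pos hm0
  refine low_hd hn hG hp Q hP M hM (hPL N (cU Q) hN) hI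
    ⟨(MonoidHom.fst _ _).comp ρ, Prod.fst_surjective.comp hρ, ft_comp _ _ hρf⟩
    ⟨z ^ (Nat.card (FF Q) * p ^ M), hz.pow hpos (by ring)⟩
    ⟨z ^ (Nat.card (FF Q) * Nat.card G), hz.pow hpos (by ring)⟩

end H51.HD
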