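import Pool.Agent.H51.HD.Gtz
import Pool.Agent.H51.HC.Fld

/-!
# H51-HD-GRP: hypercentral `T`: the group `U = T ⋊ P` (MP_b39724_nt, think 1829)

`N₁` = the subgroup generated by the elements of order prime to `p`, `P = G / N₁`; `N₁` centralises `T`, so `P` acts on `T`.
* `HU`: the frame. `exists_hu`: existence.
* `UU Q = T ⋊ P`, `kap : UU → P`, `(d, x) ↦ pr d * x`. `cU`: the classes in `UU`. `conj_iff`: conjugacy. `tc_le`: `Tc cU` is in the kernel of the projection.
* `FF Q`: the pairs `(g, u)` with `pr g = u.right`; `twf : FF → G`, `(g, u) ↦ u.left * g`.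
-/

set_option autoImplicit false

open scoped Classical

noncomputable section

namespace H51.HD

open H38.ML H63.MA H38.BB H38.BG H57.PC H77.PC3 H57.CC H38.AS H77.FLD H77.PLF H51.PF H51.F3

/-- the frame -/
structure HU (p N : ℕ) (G P : Type) [Group G] [Group P] where
  pr : G →* P
  prs : Function.Surjective pr
  T : Subgroup G
  nor : T.Normal
  tp : ∀ t ∈ T, ∃ k : ℕ, t ^ p ^ k = 1
  a : P →* MulAut T
  ha : ∀ (g : G) (t : T), ((a (pr g) t : T) : G) = g * t * g⁻¹
  sur : ∀ S : Subgroup G, S.map pr = ⊤ → (∀ g : G, ∃ s ∈ S, s⁻¹ * g ∈ T) → S = ⊤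
  cl : CL p N G
  hT : T = Tc cl

/-- an element of order prime to `p` is a power of its `p ^ k`-th power -/
private theorem mem_pw {G : Type} [Group G] [Finite G] {p : ℕ} (S : Subgroup G) {x : G} (k : ℕ)
    (hx : p.Coprime (orderOf x)) (h : x ^ p ^ k ∈ S) : x ∈ S := by
  have h1 : (p ^ k).Coprime (orderOf x) := Nat.Coprime.pow_left k hx
  obtain ⟨m, hm⟩ := exists_pow_eq_self_of_coprime h1
  rw [← hm]
  exact S.pow_mem h m

theorem exists_hu {G : Type} [Group G] [Finite G] {p N : ℕ} (hp : p.Prime) (g : Fin N → G)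
    (pow : ∀ i, g i ^ p = 1) (ne : ∀ i, g i ≠ 1) (uni : ∀ i j, IsConj (g i) (g j) → i = j)
    (hTp : ∀ t ∈ Subgroup.normalClosure (Set.range g), ∃ k : ℕ, t ^ p ^ k = 1) (k : ℕ)
    (hk : Subgroup.normalClosure (Set.range g) ≤ Subgroup.upperCentralSeries G k) :
    ∃ (N₁ : Subgroup G) (_ : N₁.Normal) (Q : HU p N G (G ⧸ N₁)),
      IsPGroup p (G ⧸ N₁) ∧ Q.cl.g = g := by
  obtain ⟨T, hT⟩ : ∃ T, T = Subgroup.normalClosure (Set.range g) := ⟨_, rfl⟩
  have hTn : T.Normal := by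
    rw [hT]
    infer_instance
  have hgT : ∀ i, g i ∈ T := fun i => by
    rw [hT]
    exact Subgroup.subset_normalClosure ⟨i, rfl⟩
  rw [← hT] at hTp hk
  have hcmm : ∀ x : G, p.Coprime (orderOf x) → ∀ t ∈ T, x * t = t * x := fun x hx t ht =>
    hyp_cmp T k hk hp hTp x t ht hx
  obtain ⟨N₁, hN₁⟩ : ∃ N₁, N₁ = Subgroup.normalClosure {x : G | p.Coprime (orderOf x)} := ⟨_, rfl⟩
  have hNn : N₁.Normal := by
    rw [hN₁]
    infer_instance
  have hcon : ∀ S : Subgroup G, (∀ x : G, p.Coprime (orderOf x) → x ∈ S) → N₁ ≤ S := by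
    intro S h1
    rw [hN₁]
    unfold Subgroup.normalClosure
    rw [Subgroup.closure_le]
    intro y hy
    obtain ⟨a, ha, hc⟩ := Group.mem_conjugatesOfSet_iff.1 hy
    obtain ⟨c, rfl⟩ := isConj_iff.1 hc
    refine h1 _ ?_
    have h2 : orderOf (c * a * c⁻¹) = orderOf a := (MulAut.conj c).orderOf_eq a
    rw [h2]
    exact ha
  have hcen : ∀ x ∈ N₁, ∀ t ∈ T, x * t = t * x := by
    have h1 : N₁ ≤ Subgroup.centralizer (T : Set G) := hcon _ fun x hx => by
      rw [Subgroup.mem_centralizer_iff]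
      exact fun t ht => (hcmm x hx t ht).symm
    intro x hx t ht
    exact ((Subgroup.mem_centralizer_iff.1 (h1 hx)) t ht).symm
  have hpg : ∀ x : G, ∃ k : ℕ, x ^ p ^ k ∈ N₁ := fun x => by
    obtain ⟨a, m, hm, hx⟩ := Nat.exists_eq_pow_mul_and_not_dvd (orderOf_pos x).ne' p hp.ne_one
    refine ⟨a, ?_⟩
    rw [hN₁]
    refine Subgroup.subset_normalClosure ?_
    show p.Coprime (orderOf (x ^ p ^ a))
    have h1 : orderOf (x ^ p ^ a) = m := by
      rw [orderOf_pow, hx, Nat.gcd_eq_right (Dvd.intro m rfl),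
        Nat.mul_div_cancel_left m (pow_pos hp.pos a)]
    rw [h1]
    exact (Nat.Prime.coprime_iff_not_dvd hp).2 hm
  have hNS : ∀ S : Subgroup G, (∀ g : G, ∃ s ∈ S, s⁻¹ * g ∈ T) → N₁ ≤ S := by
    intro S hS
    refine hcon S fun x hx => ?_
    obtain ⟨s, hs, h4⟩ := hS x
    have h4' : x⁻¹ * s ∈ T := by
      have h5 := T.inv_mem h4
      rwa [mul_inv_rev, inv_inv] at h5
    obtain ⟨k, hk⟩ := hTp _ h4'
    refine mem_pw S k hx ?_
    have h5 : s ^ p ^ k = x ^ p ^ k := by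
      have h6 : s = x * (x⁻¹ * s) := by rw [mul_inv_cancel_left]
      have h7 : Commute x (x⁻¹ * s) := hcmm x hx _ h4'
      rw [h6, h7.mul_pow, hk, mul_one]
    rw [← h5]
    exact S.pow_mem hs _
  have hker : N₁ ≤ (MulAut.conjNormal : G →* MulAut T).ker := by
    intro x hx
    rw [MonoidHom.mem_ker]
    refine MulEquiv.ext fun t => Subtype.ext ?_
    rw [MulAut.conjNormal_apply, hcen x hx t t.2, mul_inv_cancel_right]
    rfl
  refine ⟨N₁, hNn,
    { pr := QuotientGroup.mk' N₁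
      prs := QuotientGroup.mk'_surjective N₁
      T := T
      nor := hTn
      tp := hTp
      a := QuotientGroup.lift N₁ MulAut.conjNormal hker
      ha := fun x t => ?_
      sur := fun S h1 h2 => ?_
      cl := ⟨g, pow, ne, uni⟩
      hT := hT }, fun x => ?_, rfl⟩
  · show (((MulAut.conjNormal : G →* MulAut T) x t : T) : G) = _
    rw [MulAut.conjNormal_apply]
  · have h3 := hNS S h2
    refine (Subgroup.eq_top_iff' S).2 fun x => ?_
    have h4 : QuotientGroup.mk' N₁ x ∈ S.map (QuotientGroup.mk' N₁) := by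
      rw [h1]
      exact Subgroup.mem_top _
    obtain ⟨s, hs, h5⟩ := h4
    have h6 : s⁻¹ * x ∈ N₁ := QuotientGroup.eq.1 h5
    have h7 := S.mul_mem hs (h3 h6)
    rwa [mul_inv_cancel_left] at h7
  · obtain ⟨y, rfl⟩ := QuotientGroup.mk'_surjective N₁ x
    obtain ⟨k, hk⟩ := hpg y
    refine ⟨k, ?_⟩
    rw [← map_pow]
    exact (QuotientGroup.eq_one_iff _).2 hk

section uu

variable {p N : ℕ} {G P : Type} [Group G] [Group P] (Q : HU p N G P)

/-- the group `T ⋊ P` -/
abbrev UU : Type := Q.T ⋊[Q.a] P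

/-- `(d, x) ↦ pr d * x` -/
def kap : UU Q →* P :=
  SemidirectProduct.lift (Q.pr.comp Q.T.subtype) (MonoidHom.id P) fun x => by
    obtain ⟨g, rfl⟩ := Q.prs x
    refine MonoidHom.ext fun t => ?_
    show Q.pr ((Q.a (Q.pr g) t : Q.T) : G) = Q.pr g * Q.pr t * (Q.pr g)⁻¹
    rw [Q.ha, map_mul, map_mul, map_inv]

theorem kap_mk (u : UU Q) : kap Q u = Q.pr u.left * u.right := by
  have h : u = SemidirectProduct.inl u.left * SemidirectProduct.inr u.right :=
    (SemidirectProduct.inl_left_mul_inr_right u).symm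
  unfold kap
  conv_lhs => rw [h]
  rw [map_mul, SemidirectProduct.lift_inl, SemidirectProduct.lift_inr]
  rfl

theorem kap_surj : Function.Surjective (kap Q) := fun x =>
  ⟨SemidirectProduct.inr x, by rw [kap_mk]; show Q.pr ((1 : Q.T) : G) * x = x; simp⟩

/-- conjugation of `(t, 1)` by `u` -/
theorem conj_inl (u : UU Q) (t : Q.T) : ∃ t' : Q.T, u * SemidirectProduct.inl t * u⁻¹ =
    SemidirectProduct.inl t' ∧ ∃ g : G, ((t' : Q.T) : G) = g * t * g⁻¹ := by
  obtain ⟨g, hg⟩ := Q.prs u.right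
  refine ⟨u.left * Q.a u.right t * u.left⁻¹, ?_, u.left * g, ?_⟩
  · have h : u = SemidirectProduct.inl u.left * SemidirectProduct.inr u.right :=
      (SemidirectProduct.inl_left_mul_inr_right u).symm
    conv_lhs => rw [h]
    rw [map_mul, map_mul, map_inv, SemidirectProduct.inl_aut, map_inv, mul_inv_rev]
    simp only [mul_assoc]
  · rw [Subgroup.coe_mul, Subgroup.coe_mul, Subgroup.coe_inv, ← hg, Q.ha]
    group

theorem conj_iff (t t' : Q.T) : IsConj (SemidirectProduct.inl t : UU Q) (SemidirectProduct.inl t') ↔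
    IsConj (t : G) (t' : G) := by
  constructor
  · intro h
    obtain ⟨u, hu⟩ := isConj_iff.1 h
    obtain ⟨t'', h1, g, h2⟩ := conj_inl Q u t
    have h3 : t' = t'' := SemidirectProduct.inl_injective (hu.symm.trans h1)
    rw [h3]
    exact isConj_iff.2 ⟨g, h2.symm⟩
  · intro h
    obtain ⟨g, hg⟩ := isConj_iff.1 h
    refine isConj_iff.2 ⟨SemidirectProduct.inr (Q.pr g), ?_⟩
    have h1 : Q.a (Q.pr g) t = t' := Subtype.ext (by rw [Q.ha, hg])
    rw [← h1, SemidirectProduct.inl_aut, map_inv]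

theorem cl_mem (i : Fin N) : Q.cl.g i ∈ Q.T := by
  rw [Q.hT]
  exact Subgroup.subset_normalClosure ⟨i, rfl⟩

/-- the classes -/
def cU : CL p N (UU Q) where
  g i := SemidirectProduct.inl ⟨Q.cl.g i, cl_mem Q i⟩
  pow i := by
    rw [← map_pow]
    have h : (⟨Q.cl.g i, cl_mem Q i⟩ : Q.T) ^ p = 1 := Subtype.ext (Q.cl.pow i)
    rw [h, map_one]
  ne i h := by
    have h1 : (⟨Q.cl.g i, cl_mem Q i⟩ : Q.T) = 1 := SemidirectProduct.inl_injective
      (h.trans (map_one _).symm)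
    exact Q.cl.ne i (congrArg Subtype.val h1)
  uni i j h := Q.cl.uni i j ((conj_iff Q _ _).1 h)

theorem tc_le : Tc (cU Q) ≤ (SemidirectProduct.rightHom : UU Q →* P).ker := by
  refine Subgroup.normalClosure_le_normal ?_
  rintro _ ⟨i, rfl⟩
  exact SemidirectProduct.rightHom_inl _

theorem uu_pgroup (hP : IsPGroup p P) : IsPGroup p (UU Q) := by
  intro u
  obtain ⟨j, hj⟩ := hP u.right
  have h1 : (u ^ p ^ j).right = 1 := by
    have h2 : SemidirectProduct.rightHom (u ^ p ^ j) = 1 := by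
      rw [map_pow]
      exact hj
    exact h2
  have h2 : u ^ p ^ j = SemidirectProduct.inl (u ^ p ^ j).left := by
    refine SemidirectProduct.ext rfl ?_
    rw [h1]
    rfl
  obtain ⟨k, hk⟩ := Q.tp _ (u ^ p ^ j).left.2
  refine ⟨j + k, ?_⟩
  rw [pow_add, pow_mul, h2, ← map_pow]
  have h3 : (u ^ p ^ j).left ^ p ^ k = 1 := Subtype.ext hk
  rw [h3, map_one]

/-- the fibre product -/
def FF : Subgroup (G × UU Q) :=
  (Q.pr.comp (MonoidHom.fst G (UU Q))).eqLocus
    (SemidirectProduct.rightHom.comp (MonoidHom.snd G (UU Q)))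

theorem mem_ff {Q : HU p N G P} {x : G × UU Q} : x ∈ FF Q ↔ Q.pr x.1 = x.2.right := Iff.rfl

/-- the twist -/
def twf : FF Q →* G :=
  MonoidHom.mk' (fun x => (((x : G × UU Q).2.left : Q.T) : G) * (x : G × UU Q).1) fun x y => by
    obtain ⟨⟨g, u⟩, hx⟩ := x
    obtain ⟨⟨g', u'⟩, hy⟩ := y
    have hx' : Q.pr g = u.right := hx
    show (((u * u').left : Q.T) : G) * (g * g') = ((u.left : Q.T) : G) * g * (((u'.left : Q.T) : G) * g')
    rw [SemidirectProduct.mul_left, Subgroup.coe_mul, ← hx', Q.ha]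
    group

theorem twf_mk (g : G) (u : UU Q) (h : (g, u) ∈ FF Q) :
    twf Q ⟨(g, u), h⟩ = ((u.left : Q.T) : G) * g := rfl

theorem fst_surj : Function.Surjective fun x : FF Q => (x : G × UU Q).1 := fun g =>
  ⟨⟨(g, SemidirectProduct.inr (Q.pr g)), rfl⟩, rfl⟩

theorem snd_surj : Function.Surjective fun x : FF Q => (x : G × UU Q).2 := fun u => by
  obtain ⟨g, hg⟩ := Q.prs u.right
  exact ⟨⟨(g, u), hg⟩, rfl⟩

end uu

end H51.HD
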