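import Pool.Agent.H86.HT.Gtr

/-!
# H51-HD-GTZ: the groups, hypercentral `T` (MP_b39724_nt, think 1829)

`T` = the subgroup generated by the elements of least index, `T ≤ Z_k(G)` for some `k`.
* `hyp_cmm`: elements of coprime order, one of them hypercentral, commute. `trgz`: all elements of least index have the same order. `tz_pgroup`: `T` is a `p`-group.
-/

set_option autoImplicit false

open scoped Classical

noncomputable section

namespace H51.HD

open H38.ML H77.UX H51.PF H86.HT

section nil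

variable {G : Type} [Group G]

theorem ucs_sub (M : Subgroup G) (k : ℕ) (x : M) (hx : (x : G) ∈ Subgroup.upperCentralSeries G k) :
    x ∈ Subgroup.upperCentralSeries M k := by
  induction k generalizing x with
  | zero =>
    rw [Subgroup.upperCentralSeries_zero, Subgroup.mem_bot] at hx ⊢
    exact Subtype.ext hx
  | succ k ih =>
    rw [Subgroup.mem_upperCentralSeries_succ_iff] at hx ⊢
    intro y
    exact ih _ (hx y)

theorem nil_ucs (k : ℕ) (h : Group.IsNilpotent (G ⧸ Subgroup.upperCentralSeries G k)) :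
    Group.IsNilpotent G := by
  induction k with
  | zero =>
    have h1 : (QuotientGroup.mk' (Subgroup.upperCentralSeries G 0)).ker ≤ Subgroup.center G := by
      rw [QuotientGroup.ker_mk', Subgroup.upperCentralSeries_zero]
      exact bot_le
    exact Subgroup.isNilpotent_of_ker_le_center _ h1
  | succ k ih =>
    refine ih ?_
    let f : G ⧸ Subgroup.upperCentralSeries G k →* G ⧸ Subgroup.upperCentralSeries G (k + 1) :=
      QuotientGroup.map _ _ (MonoidHom.id G) (Subgroup.upperCentralSeries_mono G (Nat.le_succ k))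
    refine Subgroup.isNilpotent_of_ker_le_center f ?_
    intro x hx
    obtain ⟨x, rfl⟩ := QuotientGroup.mk_surjective x
    have h1 : x ∈ Subgroup.upperCentralSeries G (k + 1) := by
      have h2 : (QuotientGroup.mk x : G ⧸ Subgroup.upperCentralSeries G (k + 1)) = 1 := hx
      exact (QuotientGroup.eq_one_iff _).1 h2
    rw [Subgroup.mem_upperCentralSeries_succ_iff] at h1
    rw [Subgroup.mem_center_iff]
    intro y
    obtain ⟨y, rfl⟩ := QuotientGroup.mk_surjective y
    have h3 := h1 y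
    rw [← QuotientGroup.eq_one_iff, commutatorElement_def, QuotientGroup.mk_mul,
      QuotientGroup.mk_mul, QuotientGroup.mk_mul, QuotientGroup.mk_inv, QuotientGroup.mk_inv,
      mul_inv_eq_one, mul_inv_eq_iff_eq_mul] at h3
    exact h3.symm

theorem nil_comm' (h : ∀ x y : G, x * y = y * x) : Group.IsNilpotent G := by
  refine Subgroup.isNilpotent_of_ker_le_center (1 : G →* Unit) ?_
  intro x _
  rw [Subgroup.mem_center_iff]
  exact fun y => h y x

theorem hyp_nil (T : Subgroup G) (k : ℕ) (hT : T ≤ Subgroup.upperCentralSeries G k) (s : G) :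
    Group.IsNilpotent (T ⊔ Subgroup.zpowers s : Subgroup G) := by
  obtain ⟨M, hM⟩ : ∃ M, M = T ⊔ Subgroup.zpowers s := ⟨_, rfl⟩
  rw [← hM]
  have hTM : T ≤ M := by rw [hM]; exact le_sup_left
  have hsM : s ∈ M := by
    rw [hM]
    exact (le_sup_right : Subgroup.zpowers s ≤ _) (Subgroup.mem_zpowers s)
  refine nil_ucs k (nil_comm' ?_)
  have key : ∀ x : M, (QuotientGroup.mk x : M ⧸ Subgroup.upperCentralSeries M k) ∈
      Subgroup.zpowers (QuotientGroup.mk (⟨s, hsM⟩ : M) : M ⧸ Subgroup.upperCentralSeries M k) := by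
    have h1 : M ≤ ((Subgroup.zpowers (QuotientGroup.mk (⟨s, hsM⟩ : M) :
        M ⧸ Subgroup.upperCentralSeries M k)).comap (QuotientGroup.mk' _)).map M.subtype := by
      conv_lhs => rw [hM]
      refine sup_le (fun t ht => ?_) ?_
      · refine ⟨⟨t, hTM ht⟩, ?_, rfl⟩
        have h2 : (QuotientGroup.mk (⟨t, hTM ht⟩ : M) : M ⧸ Subgroup.upperCentralSeries M k) = 1 :=
          (QuotientGroup.eq_one_iff _).2 (ucs_sub M k _ (hT ht))
        rw [SetLike.mem_coe, Subgroup.mem_comap, QuotientGroup.mk'_apply, h2]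
        exact one_mem _
      · rw [Subgroup.zpowers_le]
        exact ⟨⟨s, hsM⟩, Subgroup.mem_zpowers _, rfl⟩
    intro x
    obtain ⟨y, hy, hyx⟩ := h1 x.2
    have h2 : y = x := Subtype.ext hyx
    rw [← h2]
    exact hy
  intro x y
  obtain ⟨x, rfl⟩ := QuotientGroup.mk_surjective x
  obtain ⟨y, rfl⟩ := QuotientGroup.mk_surjective y
  obtain ⟨a, ha⟩ := key x
  obtain ⟨b, hb⟩ := key y
  simp only at ha hb
  rw [← ha, ← hb, ← zpow_add, ← zpow_add, add_comm]

/-- elements of coprime orders, one of them in a hypercentral subgroup, commute -/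
theorem hyp_cmm [Finite G] (T : Subgroup G) (k : ℕ) (hT : T ≤ Subgroup.upperCentralSeries G k)
    {q : ℕ} (hq : q.Prime) (s g : G) (hs : ∃ j : ℕ, s ^ q ^ j = 1) (hg : g ∈ T)
    (hqg : ¬ q ∣ orderOf g) : s * g = g * s := by
  have hnil := hyp_nil T k hT s
  have hgM : g ∈ T ⊔ Subgroup.zpowers s := (le_sup_left : T ≤ _) hg
  have hsM : s ∈ T ⊔ Subgroup.zpowers s :=
    (le_sup_right : Subgroup.zpowers s ≤ _) (Subgroup.mem_zpowers s)
  have h1 := nil_comm hnil hq (a := ⟨s, hsM⟩) (b := ⟨g, hgM⟩) (by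
    obtain ⟨j, hj⟩ := hs
    exact ⟨j, Subtype.ext hj⟩) (by
    rw [Subgroup.orderOf_mk]
    exact hqg)
  exact congrArg Subtype.val h1

theorem hyp_tnil (T : Subgroup G) (k : ℕ) (hT : T ≤ Subgroup.upperCentralSeries G k) :
    Group.IsNilpotent T := by
  have h := hyp_nil T k hT 1
  rw [Subgroup.zpowers_one_eq_bot, sup_bot_eq] at h
  exact h

/-- an element of order prime to `p` and an element of a hypercentral `p`-subgroup commute -/
theorem hyp_cmp [Finite G] (T : Subgroup G) (k : ℕ) (hT : T ≤ Subgroup.upperCentralSeries G k)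
    {p : ℕ} (hp : p.Prime) (hTp : ∀ t ∈ T, ∃ j : ℕ, t ^ p ^ j = 1) (x t : G) (ht : t ∈ T)
    (hx : p.Coprime (orderOf x)) : x * t = t * x := by
  have hnil := hyp_nil T k hT x
  have hgM : t ∈ T ⊔ Subgroup.zpowers x := (le_sup_left : T ≤ _) ht
  have hsM : x ∈ T ⊔ Subgroup.zpowers x :=
    (le_sup_right : Subgroup.zpowers x ≤ _) (Subgroup.mem_zpowers x)
  have h1 := nil_comm hnil hp (a := ⟨t, hgM⟩) (b := ⟨x, hsM⟩) (by
    obtain ⟨j, hj⟩ := hTp t ht
    exact ⟨j, Subtype.ext hj⟩) (by
    rw [Subgroup.orderOf_mk]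
    exact (Nat.Prime.coprime_iff_not_dvd hp).1 hx)
  exact (congrArg Subtype.val h1).symm

end nil

section perm

variable {n : ℕ} {G : Subgroup (Equiv.Perm (Fin n))}

/-- the elements of least index have the same order -/
theorem trgz (hn : 2 ≤ n) (G : Subgroup (Equiv.Perm (Fin n)))
    (hG : MulAction.IsPretransitive G (Fin n)) (k : ℕ)
    (hk : TT G ≤ Subgroup.upperCentralSeries G k) (g g' : G) (hg0 : g ∈ Li G)
    (hg0' : g' ∈ Li G) : orderOf g = orderOf g' := by
  by_contra hne
  obtain ⟨hg, h⟩ := hg0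
  obtain ⟨hg', h'⟩ := hg0'
  have hcm : ∀ (q : ℕ) (_ : q.Prime) (z : G), z ∈ Li G → ¬ q ∣ orderOf z →
      ∀ s : G, (∃ j : ℕ, s ^ q ^ j = 1) → s * z = z * s := fun q hq z hz hqz s hs =>
    hyp_cmm (TT G) k hk hq s z hs (Subgroup.subset_closure hz) hqz
  have hl := prime_of_least G g hg h
  have hl' := prime_of_least G g' hg' h'
  have ho : orderOf (g : Equiv.Perm (Fin n)) = orderOf g := Subgroup.orderOf_coe g
  have ho' : orderOf (g' : Equiv.Perm (Fin n)) = orderOf g' := Subgroup.orderOf_coe g'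
  have i1 := ind_prime (g : Equiv.Perm (Fin n)) (by rw [ho]; exact hl)
  have i2 := ind_prime (g' : Equiv.Perm (Fin n)) (by rw [ho']; exact hl')
  rw [ho] at i1
  rw [ho'] at i2
  have hn0 : n ≠ 0 := by omega
  have hgL : g ∈ Li G := ⟨hg, h⟩
  have hgL' : g' ∈ Li G := ⟨hg', h'⟩
  change ind (g : Equiv.Perm (Fin n)) = indG G at h
  change ind (g' : Equiv.Perm (Fin n)) = indG G at h'
  set l := orderOf g with hldef
  set l' := orderOf g' with hldef'
  set I := indG G with hI
  rw [h] at i1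
  rw [h'] at i2
  set m := n - Fx (g : Equiv.Perm (Fin n)) with hm
  set v := n.factorization l with hv
  have hnl : l ^ v ∣ n := Nat.ordProj_dvd n l
  have hI0 : 0 < I := by
    rw [← h]
    exact ind_pos _ (fun h => hg (Subtype.ext h))
  have hll' : ¬ l ∣ l' := fun hd => hne ((Nat.prime_dvd_prime_iff_eq hl hl').1 hd)
  have d1 : l ^ v ∣ Fx (g' : Equiv.Perm (Fin n)) :=
    dvd_Fy hn0 hG hl g' (hcm l hl g' hgL' hll')
  have d2 : l ^ v ∣ l' * I := by
    rw [i2]
    exact Dvd.dvd.mul_left (Nat.dvd_sub hnl d1) _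
  have d3 : l ^ v ∣ I :=
    (Nat.Coprime.pow_left v ((Nat.Prime.coprime_iff_not_dvd hl).2 hll')).dvd_of_dvd_mul_left d2
  have hl1 : 1 < l := hl.one_lt
  have d4 : l ^ (v + 1) ∣ m := by
    have h1 : l ^ (v + 1) ∣ (l - 1) * m := by
      rw [← i1, pow_succ, mul_comm]
      exact Nat.mul_dvd_mul_left l d3
    have h2 : ¬ l ∣ l - 1 := fun hd => by
      have := Nat.le_of_dvd (by omega) hd
      omega
    exact (Nat.Coprime.pow_left (v + 1) ((Nat.Prime.coprime_iff_not_dvd hl).2 h2)).dvd_of_dvd_mul_left h1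
  have hm0 : m ≠ 0 := by
    intro h0
    rw [h0, mul_zero] at i1
    rcases Nat.mul_eq_zero.1 i1 with h1 | h1
    · omega
    · omega
  have hln : l * n ∣ m := by
    rw [← Nat.factorization_le_iff_dvd (by positivity) hm0]
    intro q
    by_cases hq : q.Prime
    · rw [Nat.factorization_mul (by omega) hn0, Finsupp.add_apply]
      by_cases hql : q = l
      · rw [hql, hl.factorization_self, ← hv]
        have := (hl.pow_dvd_iff_le_factorization hm0).1 d4
        omega
      · have h1 : l.factorization q = 0 := by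
          rw [Nat.Prime.factorization hl, Finsupp.single_apply, if_neg (Ne.symm hql)]
        rw [h1, zero_add]
        have h2 : q ^ n.factorization q ∣ m := by
          rw [hm]
          refine Nat.dvd_sub (Nat.ordProj_dvd n q) (dvd_Fy hn0 hG hq g (hcm q hq g hgL ?_))
          rw [← hldef]
          exact fun hd => hql ((Nat.prime_dvd_prime_iff_eq hq hl).1 hd)
        exact (hq.pow_dvd_iff_le_factorization hm0).1 h2
    · rw [Nat.factorization_eq_zero_of_not_prime _ hq]
      exact Nat.zero_le _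
  have h1 := Nat.le_of_dvd (Nat.pos_of_ne_zero hm0) hln
  have h2 : m ≤ n := Nat.sub_le _ _
  nlinarith

/-- `T` is a `p`-group -/
theorem tz_pgroup (G : Subgroup (Equiv.Perm (Fin n))) (k : ℕ)
    (hk : TT G ≤ Subgroup.upperCentralSeries G k) {p : ℕ} (hp : p.Prime)
    (hL : ∀ h ∈ Li G, h ^ p = 1) : IsPGroup p (TT G) := by
  have : Fact p.Prime := ⟨hp⟩
  have hnil := hyp_tnil (TT G) k hk
  obtain ⟨S⟩ : Nonempty (Sylow p (TT G)) := inferInstance
  have h1 : TT G ≤ (S : Subgroup (TT G)).map (TT G).subtype := by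
    conv_lhs => rw [TT]
    rw [Subgroup.closure_le]
    intro h hh
    have hm : h ∈ TT G := Subgroup.subset_closure hh
    refine ⟨⟨h, hm⟩, nil_mem hnil hp S ⟨1, ?_⟩, rfl⟩
    rw [pow_one]
    exact Subtype.ext (hL h hh)
  intro x
  obtain ⟨y, hy, hyx⟩ := h1 x.2
  have h2 : y = x := Subtype.ext hyx
  rw [← h2]
  obtain ⟨j, hj⟩ := S.isPGroup' ⟨y, hy⟩
  exact ⟨j, congrArg Subtype.val hj⟩

end perm

end H51.HD
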