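import Pool.Agent.H51.HD.Grp

/-!
# H51-HD-LOW: hypercentral `T`: the lower bound, `G / T` arbitrary (MP_b39724_nt, think 1829, (a))

`Φ : Γ → FF Q` surjective, `φ₀`, `ψ₀` its components. The homomorphisms `ψ : Γ → U` of the type of `ψ₀` have `ψ.right = pr φ₀` (`hd_rt`); `φ = ψ.left * φ₀` (`tw`) is a surjective
homomorphism to `G` with the same primes and types (`tw_pu`).
-/

set_option autoImplicit false

open scoped NumberField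
open IsDedekindDomain H38.ML Filter Topology
open scoped Classical

noncomputable section

namespace H51.HD

open H63.MA H38.BB H38.BG H57.PC H57.BRA H63.BU H77.PC3 H57.CC H38.AS H77.S0T H77.AB H77.GN
  H77.UX H77.FLD H77.PLF H51.PF H51.F3 H51.HC

section tw

variable {K : Type} [Field K] [NumberField K] {Ω : Type} [Field Ω] [Algebra K Ω]
  [IsAlgClosure K Ω] {p N : ℕ} {ζ : K} {G P : Type} [Group G] [Group P] (Q : HU p N G P)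

/-- the twist of `φ₀` by `ψ` -/
def tw (φ₀ : Gal(Ω/K) →* G) (ψ : Gal(Ω/K) →* UU Q) : Gal(Ω/K) →* G :=
  if h : ∀ σ, (φ₀ σ, ψ σ) ∈ FF Q then (twf Q).comp ((φ₀.prod ψ).codRestrict (FF Q) h) else 1

omit [NumberField K] [IsAlgClosure K Ω] in
theorem tw_ap {φ₀ : Gal(Ω/K) →* G} {ψ : Gal(Ω/K) →* UU Q} (h : ∀ σ, Q.pr (φ₀ σ) = (ψ σ).right)
    (σ : Gal(Ω/K)) : tw Q φ₀ ψ σ = (((ψ σ).left : Q.T) : G) * φ₀ σ := by
  have h' : ∀ σ, (φ₀ σ, ψ σ) ∈ FF Q := h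
  unfold tw
  rw [dif_pos h']
  rfl

omit [NumberField K] [IsAlgClosure K Ω] in
theorem tw_ft {φ₀ : Gal(Ω/K) →* G} {ψ : Gal(Ω/K) →* UU Q} (h : ∀ σ, Q.pr (φ₀ σ) = (ψ σ).right)
    (h0 : H38.ML.FT φ₀) (h1 : H38.ML.FT ψ) : H38.ML.FT (tw Q φ₀ ψ) := by
  obtain ⟨E, hE, hle⟩ := h0
  obtain ⟨E', hE', hle'⟩ := h1
  refine ⟨E ⊔ E', inferInstance, fun σ hσ => ?_⟩
  have h2 : φ₀ σ = 1 := hle (IntermediateField.fixingSubgroup_antitone le_sup_left hσ)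
  have h3 : ψ σ = 1 := hle' (IntermediateField.fixingSubgroup_antitone le_sup_right hσ)
  rw [MonoidHom.mem_ker, tw_ap Q h, h2, h3, mul_one]
  rfl

omit [NumberField K] [IsAlgClosure K Ω] in
theorem tw_surj {φ₀ : Gal(Ω/K) →* G} {ψ : Gal(Ω/K) →* UU Q}
    (h : ∀ σ, Q.pr (φ₀ σ) = (ψ σ).right) (h0 : Function.Surjective φ₀)
    (h1 : Function.Surjective ψ) : Function.Surjective (tw Q φ₀ ψ) := by
  rw [← MonoidHom.range_eq_top]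
  refine Q.sur _ ?_ fun g => ?_
  · rw [eq_top_iff]
    intro x _
    obtain ⟨u, hu⟩ := kap_surj Q x
    obtain ⟨σ, rfl⟩ := h1 u
    refine ⟨tw Q φ₀ ψ σ, ⟨σ, rfl⟩, ?_⟩
    rw [tw_ap Q h, map_mul, h, ← kap_mk, hu]
  · obtain ⟨σ, rfl⟩ := h0 g
    refine ⟨tw Q φ₀ ψ σ, ⟨σ, rfl⟩, ?_⟩
    rw [tw_ap Q h, mul_inv_rev]
    have h2 := Q.nor.conj_mem _ (Q.T.inv_mem (ψ σ).left.2) (φ₀ σ)⁻¹
    rwa [inv_inv] at h2

omit [IsAlgClosure K Ω] in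
theorem tw_pu {D : RD0 K p ζ} (L : LDs D Ω) {φ₀ : Gal(Ω/K) →* G} {ψ : Gal(Ω/K) →* UU Q}
    (h : ∀ σ, Q.pr (φ₀ σ) = (ψ σ).right) (hf : H38.ML.FT φ₀) (h0 : Function.Surjective φ₀)
    (hu : ∀ v, v ∉ D.S0 → ∀ τ ∈ inr L v, φ₀ τ = 1) {Y : ℝ} (hψ : ψ ∈ PU L (cU Q) ∅ Y) :
    tw Q φ₀ ψ ∈ PU L Q.cl ∅ Y := by
  obtain ⟨g1, g2, g3, g4⟩ := hψ
  have hin : ∀ v, v ∉ D.S0 → ∀ τ ∈ inr L v, ψ τ = SemidirectProduct.inl (ψ τ).left ∧
      tw Q φ₀ ψ τ = (((ψ τ).left : Q.T) : G) := by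
    intro v hv τ hτ
    have h2 := h τ
    rw [hu v hv τ hτ, map_one] at h2
    refine ⟨SemidirectProduct.ext rfl ?_, ?_⟩
    · rw [← h2]
      rfl
    · rw [tw_ap Q h, hu v hv τ hτ, mul_one]
  refine ⟨tw_ft Q h hf g1, tw_surj Q h h0 g2, fun v hv hE => ?_, fun X hX => ?_⟩
  · rcases g3 v hv hE with h2 | ⟨i, hd, hi, hp⟩
    · refine Or.inl fun τ hτ => ?_
      rw [(hin v hv τ hτ).2, h2 τ hτ]
      rfl
    · refine Or.inr ⟨i, hd, ?_, fun τ hτ => ?_⟩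
      · rw [(hin v hv _ (uinr_t L v)).2]
        rw [(hin v hv _ (uinr_t L v)).1] at hi
        exact (conj_iff Q _ _).1 hi
      · have h3 := hp τ hτ
        rw [(hin v hv τ hτ).1, ← map_pow] at h3
        have h4 : (ψ τ).left ^ p = 1 := SemidirectProduct.inl_injective
          (h3.trans (map_one _).symm)
        rw [(hin v hv τ hτ).2]
        exact congrArg Subtype.val h4
  · refine g4 X fun v hv => ⟨(hX v hv).1, (hX v hv).2.1, fun h2 => (hX v hv).2.2 fun τ hτ => ?_⟩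
    rw [(hin v (hX v hv).1 τ hτ).2, h2 τ hτ]
    rfl

/-- the second component -/
theorem hd_rt [Finite P] (hp : p.Prime) (hζ : IsPrimitiveRoot ζ p) (hP : IsPGroup p P)
    (hPU : IsPGroup p (UU Q)) [Finite (UU Q)]
    {D : RD0 K p ζ} (L : LDs D Ω) (Q' : DP K Ω) (ψ₀ : Gal(Ω/K) →* UU Q) (h₀ : H38.ML.FT ψ₀)
    (hu : ∀ v, v ∉ D.S0 → ∀ τ ∈ inr L v, (ψ₀ τ).right = 1) (Y : ℝ) (ψ : Gal(Ω/K) →* UU Q)
    (hψ : ψ ∈ SYT L Q' (cU Q) (Tc (cU Q)) ψ₀ Y) (σ : Gal(Ω/K)) : (ψ₀ σ).right = (ψ σ).right := by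
  obtain ⟨g1, g2, g3, g4, g5⟩ := hψ
  have hq := sep_hom hp hζ D L Q' hP ((SemidirectProduct.rightHom : UU Q →* P).comp ψ₀)
    ((SemidirectProduct.rightHom : UU Q →* P).comp ψ) (H38.ML.ft_comp _ _ h₀)
    (H38.ML.ft_comp _ _ g1) hu ?_ ?_
  · exact DFunLike.congr_fun hq σ
  · intro v hv τ hτ
    rcases g4 v hv with h | ⟨i, hi⟩
    · rw [MonoidHom.comp_apply, h τ hτ, map_one]
    · have h5 := (H48.MF.ing_inr hp hζ L hv ψ g1 fun τ' _ => hPU (ψ τ')).1 τ hτ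
      have h6 : ψ (L.t v) ∈ (SemidirectProduct.rightHom : UU Q →* P).ker := by
        refine tc_le Q ?_
        obtain ⟨c, hc⟩ := isConj_iff.1 hi.2.1.symm
        rw [← hc]
        exact (Subgroup.normalClosure_normal).conj_mem _
          (Subgroup.subset_normalClosure (Set.mem_range_self i)) c
      exact (Subgroup.zpowers_le.2 h6) h5
  · intro v hv σ' hσ'
    obtain ⟨g, hg, h7⟩ := g3 v hv
    have h8 : (SemidirectProduct.rightHom : UU Q →* P) g = 1 := tc_le Q hg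
    rw [MonoidHom.comp_apply, MonoidHom.comp_apply, h7 σ' hσ', map_mul, map_mul, map_inv, h8,
      one_mul, inv_one, mul_one]

end tw

variable {n : ℕ} (G : Subgroup (Equiv.Perm (Fin n))) (K : IntermediateField ℚ QBar)
  [NumberField K]

/-- THEOREM: the lower bound -/
theorem hdlow (hn : 2 ≤ n) (hG : MulAction.IsPretransitive G (Fin n)) {p : ℕ} [NeZero p]
    (hp : p.Prime) (hp2 : MOne p K) {ζ : K} (hζ : IsPrimitiveRoot ζ p) {M : ℕ} {z₂ : K}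
    (hz2 : IsPrimitiveRoot z₂ (p ^ M)) {N : ℕ} {P : Type} [Group P] [Finite P]
    (Q : HU p N G P) (hP : IsPGroup p P) (hPo : PPosT p M (cU Q) (Tc (cU Q)))
    (hU : PUb p M (cU Q))
    (hI : ∀ h : G, (h ≠ 1 ∧ ind (h : Equiv.Perm (Fin n)) = indG G) ↔
      ∃ i, IsConj h (Q.cl.g i))
    (Φ : Gal(QBar/K) →* FF Q) (hs : Function.Surjective Φ) (hΦ : FT Φ) :
    ∃ c B₀ : ℝ, 0 < c ∧ ∀ B : ℝ, B₀ ≤ B →
      ((⌈c * B ^ (1 / (indG G : ℝ)) * Real.log B ^ (N - 1)⌉₊ : ℕ) : ℕ∞) ≤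
        Spec.nK K QBar G B := by
  have hPU := uu_pgroup Q hP
  have hfU : Finite (UU Q) := by
    refine Finite.of_injective (fun u : UU Q => ((u.left, u.right) : Q.T × P)) ?_
    intro u v h
    exact SemidirectProduct.ext (congrArg Prod.fst h) (congrArg Prod.snd h)
  obtain ⟨φ₀, hφ⟩ : ∃ φ₀ : Gal(QBar/K) →* G,
      φ₀ = (MonoidHom.fst G (UU Q)).comp ((FF Q).subtype.comp Φ) := ⟨_, rfl⟩
  obtain ⟨ψ₀, hψ⟩ : ∃ ψ₀ : Gal(QBar/K) →* UU Q,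
      ψ₀ = (MonoidHom.snd G (UU Q)).comp ((FF Q).subtype.comp Φ) := ⟨_, rfl⟩
  have hφ₀ : FT φ₀ := by
    rw [hφ]
    exact ft_comp _ _ (ft_comp _ _ hΦ)
  have hψ₀ : FT ψ₀ := by
    rw [hψ]
    exact ft_comp _ _ (ft_comp _ _ hΦ)
  have hs₀ : Function.Surjective φ₀ := by
    intro g
    obtain ⟨x, hx⟩ := fst_surj Q g
    obtain ⟨σ, rfl⟩ := hs x
    exact ⟨σ, by rw [hφ]; exact hx⟩
  have hs₁ : Function.Surjective ψ₀ := by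
    intro g
    obtain ⟨x, hx⟩ := snd_surj Q g
    obtain ⟨σ, rfl⟩ := hs x
    exact ⟨σ, by rw [hψ]; exact hx⟩
  have hrt : ∀ σ, Q.pr (φ₀ σ) = (ψ₀ σ).right := by
    intro σ
    rw [hφ, hψ]
    exact (Φ σ).2
  obtain ⟨ha, -, -, -, -⟩ := pidx_pos hn G hG
  obtain ⟨D, hD, hun⟩ := ard (Ω := QBar) hp hp2 hζ Φ hΦ (Nat.card G) Nat.card_pos
  obtain ⟨L⟩ := exists_LDs QBar hp hζ D.toRD0
  obtain ⟨Q', hLQ⟩ := H51.AC2.dp_of L
  have hu : ∀ v, v ∉ D.S0 → ∀ τ ∈ inr L v, φ₀ τ = 1 := fun v hv τ hτ => by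
    rw [hφ]
    show ((Φ τ : FF Q) : G × UU Q).1 = 1
    rw [hun L v hv τ hτ]
    rfl
  have hu' : ∀ v, v ∉ D.S0 → ∀ τ ∈ inr L v, ψ₀ τ = 1 := fun v hv τ hτ => by
    rw [hψ]
    show ((Φ τ : FF Q) : G × UU Q).2 = 1
    rw [hun L v hv τ hτ]
    rfl
  refine cfl hn G hG ha K D.toRD0 L Q.cl.g (fun h i hi => ((hI h).2 ⟨i, hi⟩).2) ?_
  obtain ⟨c₀, hc₀, hev⟩ := hPo K ζ hζ z₂ hz2 D L Q' hLQ ψ₀ hψ₀ hs₁ hu'
  obtain ⟨X₁, hX₁⟩ := eventually_atTop.1 hev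
  refine ⟨c₀, max X₁ 3, hc₀, le_max_right _ _, fun X hX => ?_⟩
  have hfin : (SYT L Q' (cU Q) (Tc (cU Q)) ψ₀ X).Finite :=
    (pu_fin hζ hz2 hU D L X).subset (syt_sub L Q' (cU Q) (Tc (cU Q)) _ X)
  have hrr : ∀ ψ ∈ SYT L Q' (cU Q) (Tc (cU Q)) ψ₀ X, ∀ σ, Q.pr (φ₀ σ) = (ψ σ).right := by
    intro ψ h1 σ
    rw [hrt]
    exact hd_rt Q hp hζ hP hPU L Q' ψ₀ hψ₀ (fun v hv τ hτ => by rw [hu' v hv τ hτ]; rfl) X ψ h1 σ
  have hinj : Set.InjOn (tw Q φ₀) (SYT L Q' (cU Q) (Tc (cU Q)) ψ₀ X) := by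
    intro ψ h1 ψ' h1' he
    refine MonoidHom.ext fun σ => ?_
    have h2 := DFunLike.congr_fun he σ
    rw [tw_ap Q (hrr ψ h1), tw_ap Q (hrr ψ' h1')] at h2
    refine SemidirectProduct.ext (Subtype.ext (mul_right_cancel h2)) ?_
    rw [← hrr ψ h1, ← hrr ψ' h1']
  refine ⟨hfin.toFinset.image (tw Q φ₀), ?_, fun φ hφ' => ?_⟩
  · have h1 := hX₁ X ((le_max_left _ _).trans hX)
    rw [Finset.card_image_of_injOn (by
      rw [Set.Finite.coe_toFinset]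
      exact hinj)]
    rw [Set.ncard_eq_toFinset_card _ hfin] at h1
    rw [mul_assoc]
    exact h1
  · rw [Finset.mem_image] at hφ'
    obtain ⟨ψ, hψ', rfl⟩ := hφ'
    rw [Set.Finite.mem_toFinset] at hψ'
    have h1 := tw_pu Q L (hrr ψ hψ') hφ₀ hs₀ hu (syt_sub L Q' (cU Q) (Tc (cU Q)) ψ₀ X hψ')
    -- on the inertia groups outside `S0` the orders are powers of `p`
    have hpI : ∀ v, v ∉ D.S0 → ∀ τ ∈ inr L v, ∃ k : ℕ, tw Q φ₀ ψ τ ^ (p ^ k) = 1 := by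
      intro v hv τ hτ
      rw [tw_ap Q (hrr ψ hψ'), hu v hv τ hτ, mul_one]
      exact Q.tp _ (ψ τ).left.2
    refine ⟨h1.1, h1.2.1, H35.AC.nfs L ∅ (tw Q φ₀ ψ),
      fun v hv => ((H35.AC.mem_nfs h1 v).1 hv).1, ?_, fun v hv => ?_, fun v hv hv2 => ?_⟩
    · have h2 := H35.AC.nfs_AF h1
      rw [mem_AF] at h2
      exact h2
    · obtain ⟨h2, h3, h4⟩ := (H35.AC.mem_nfs h1 v).1 hv
      rcases h1.2.2.1 v h2 h3 with h5 | ⟨i, hi⟩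
      · exact absurd (h5 _ (H35.AC.lt_mem L h2)) h4
      · exact ⟨i, tw Q φ₀ ψ (L.t v), hi.2.1, (H48.MF.ing_inr hp hζ L h2 _ h1.1 (hpI v h2)).1⟩
    · have h2 : tw Q φ₀ ψ (L.t v) = 1 := by
        by_contra h3
        exact hv2 ((H35.AC.mem_nfs h1 v).2 ⟨hv, Finset.notMem_empty v, h3⟩)
      exact (H48.MF.ing_inr hp hζ L hv _ h1.1 (hpI v hv)).2.2 h2

end H51.HD
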